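import Pool.Agent.N510.BC.Stm
import Pool.Agent.R703.MN.CLS

/-!
# Bass-Quillen for `V[z_1,...,z_l]/(s z_1^{c_1} ⋯ z_l^{c_l} - π)`, `V` a discrete valuation ring
-/

set_option autoImplicit false

noncomputable section

namespace Pool.Agent.N654.BC

open Pool.Agent.N510.BC BQ IsLocalRing Polynomial Pool.Agent.H40.BP Pool.Agent.W394.BQN
open Pool.Agent.R703.MN

theorem span_mrel {V : Type} [CommRing V] (l : ℕ) (s : Vˣ) (c : Fin l → ℕ) (π : V) :
    Ideal.span {mrel l (s : V) c π} = monIdeal V (((s⁻¹ : Vˣ) : V) * π) c := by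
  have h1 : mrel l (s : V) c π = MvPolynomial.C (s : V) *
      (∏ i, MvPolynomial.X i ^ c i - MvPolynomial.C (((s⁻¹ : Vˣ) : V) * π)) := by
    unfold mrel
    rw [mul_sub, ← MvPolynomial.C_mul, ← mul_assoc, Units.mul_inv, one_mul]
  have h2 : IsUnit (MvPolynomial.C (s : V) : MvPolynomial (Fin l) V) :=
    s.isUnit.map MvPolynomial.C
  rw [h1, Ideal.span_singleton_mul_left_unit h2]
  rfl

theorem t_MONL : S_MONL := by
  intro V _ _ _ _ s π hs hπ l c hc
  obtain ⟨u, rfl⟩ := hs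
  have hπ' : Prime (((u⁻¹ : Vˣ) : V) * π) :=
    (associated_isUnit_mul_left_iff (u := ((u⁻¹ : Vˣ) : V)) (by exact u⁻¹.isUnit)).2
      (Associated.refl π) |>.symm.prime hπ
  obtain ⟨k, hk⟩ : ∃ k, c k ≠ 0 := by
    by_contra h
    push Not at h
    exact hc (funext h)
  obtain ⟨W, _, _, _, z, hz, a', ha', ⟨e⟩⟩ := mon_local V _ hπ' c k hk
  have h1 : AF (Mon W z a') := mon_AF W z (Or.inl hz) a' ha'
  have h2 : AF (Mon V (((u⁻¹ : Vˣ) : V) * π) c) := AF.of_equiv e.symm h1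
  exact AF.of_equiv (Ideal.quotEquivOfEq (span_mrel l u c π)).symm h2

end Pool.Agent.N654.BC
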